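import Pool.Agent.P.MP_dc8297_co.Defs
import Pool.Agent.P.MP_dc8297_co.Proof

open Pool.Agent.P.MP_dc8297_co

namespace Pool.Agent.Results.MP_dc8297_co.FixedDegreeGap

/-- For every degree `k ≥ 2` and every `d ≥ 1` there is a simple `k`-regular ordered 2-stage graph
`L` with classes of size `2 k^d` such that `L^(2d+3)` is externally connected, while `L^n` is not
rearrangeable for any `n < k^(d+1)`. -/
theorem result (k d : ℕ) (hk : 2 ≤ k) (hd : 1 ≤ d) :
    ∃ L : Fin (2 * k ^ d) → Fin (2 * k ^ d) → Prop, IsRegular L k ∧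
      ExternallyConnected L (2 * d + 3) ∧ ∀ n, n < k ^ (d + 1) → ¬ Rearrangeable L n :=
  main k d hk hd

end Pool.Agent.Results.MP_dc8297_co.FixedDegreeGap
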