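import Pool.Agent.P.MP_dc8297_co.SEMain

open Pool.Agent.P.MP_dc8297_co

namespace Pool.Agent.Results.MP_dc8297_co.ShuffleExchange

/-- For `k = 2`, `n ≥ 5` and for `k ≥ 3`, `n ≥ 3` the shuffle-exchange graph `L = SE(k,n)` is
`k`-regular, `L^(n-1)` is externally connected, and `L^j` is not rearrangeable for any
`j ≤ 2(n-1)`. -/
theorem result (k n : ℕ) (hk : 2 ≤ k) (hn : 3 ≤ n) (h2 : k = 2 → 5 ≤ n) :
    IsRegular (SE k n) k ∧ ExternallyConnected (SE k n) (n - 1) ∧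
      ∀ j, j ≤ 2 * (n - 1) → ¬ Rearrangeable (SE k n) j :=
  se_main k n hk hn h2

end Pool.Agent.Results.MP_dc8297_co.ShuffleExchange
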